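import Pool.Agent.ACK.StmtsD

/-! Row CNT of the squad ACK. -/

namespace Pool.Agent.ACK.H70

open Pool.Agent.ACK Pool.Agent.ACK.D

theorem cnt : CntStmt := by
  classical
  intro X Y _ g1 g2 τ σ S h1 h2 h3 h4 h5
  letI : Fintype X := Fintype.ofFinite X
  set A1 : Finset Y := Finset.univ.image g1 with hA1
  set A2 : Finset Y := Finset.univ.image g2 with hA2
  have hdis : Disjoint A1 A2 := by
    rw [Finset.disjoint_left]
    intro a ha hb
    obtain ⟨x, -, hx⟩ := Finset.mem_image.mp ha
    obtain ⟨x', -, hx'⟩ := Finset.mem_image.mp hb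
    exact h3 x x' (hx.trans hx'.symm)
  have hsub : ((A1 ∪ A2 : Finset Y) : Set Y) ⊆ S := by
    intro a ha
    rcases Finset.mem_union.mp (Finset.mem_coe.mp ha) with h | h
    · obtain ⟨x, -, hx⟩ := Finset.mem_image.mp h
      rw [← hx]; exact h4 x
    · obtain ⟨x, -, hx⟩ := Finset.mem_image.mp h
      rw [← hx]; exact h5 x
  have hS : ((A1.card + A2.card : ℕ) : ℕ∞) ≤ S.encard := by
    rw [← Finset.card_union_of_disjoint hdis, ← Set.encard_coe_eq_coe_finsetCard]
    exact Set.encard_le_encard hsub
  have hf1 : (Finset.univ : Finset X).card ≤ 2 * A1.card := by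
    refine Finset.card_le_mul_card_image _ 2 ?_
    intro a ha
    obtain ⟨x, -, hx⟩ := Finset.mem_image.mp ha
    refine (Finset.card_le_card (t := {x, τ x}) ?_).trans Finset.card_le_two
    intro x' hx'
    have : g1 x' = a := (Finset.mem_filter.mp hx').2
    rcases h1 x x' (hx.trans this.symm) with h | h
    · rw [h]; exact Finset.mem_insert_self _ _
    · rw [h]; exact Finset.mem_insert_of_mem (Finset.mem_singleton_self _)
  have hf2 : (Finset.univ : Finset X).card ≤ 720 * A2.card := by
    refine Finset.card_le_mul_card_image _ 720 ?_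
    intro a ha
    obtain ⟨x, -, hx⟩ := Finset.mem_image.mp ha
    have hc : (Finset.univ : Finset (Equiv.Perm (Fin 6))).card = 720 := by
      rw [Finset.card_univ, Fintype.card_perm, Fintype.card_fin]
      rfl
    refine (Finset.card_le_card
      (t := (Finset.univ : Finset (Equiv.Perm (Fin 6))).image fun π => σ π x) ?_).trans
      (Finset.card_image_le.trans hc.le)
    intro x' hx'
    have : g2 x' = a := (Finset.mem_filter.mp hx').2
    obtain ⟨π, hπ⟩ := h2 x x' (hx.trans this.symm)
    exact Finset.mem_image.mpr ⟨π, Finset.mem_univ _, hπ.symm⟩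
  have hN : Nat.card X = (Finset.univ : Finset X).card := by
    rw [Nat.card_eq_fintype_card, Finset.card_univ]
  have hfin : 361 * Nat.card X ≤ 720 * (A1.card + A2.card) := by
    rw [hN]; omega
  calc ((361 * Nat.card X : ℕ) : ℕ∞) ≤ ((720 * (A1.card + A2.card) : ℕ) : ℕ∞) := by
        exact_mod_cast hfin
    _ = 720 * ((A1.card + A2.card : ℕ) : ℕ∞) := by push_cast; rfl
    _ ≤ 720 * S.encard := by gcongr

end Pool.Agent.ACK.H70
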